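import Pool.Agent.N709.ST.Stm

/-!
# Subtask ST/LIMIT: the limit colouring of the chain of stages is generic
-/

namespace Pool.Agent.N359.ST

open Pool.Agent.N709.ST

theorem cs_congr {t : ℕ} {c c₁ : Finset ℕ → ℕ} {Y : Finset ℕ}
    (h : ∀ S ⊆ Y, S.card = t → c S = c₁ S) : cs t c Y = cs t c₁ Y := by
  unfold cs
  apply Finset.image_congr
  intro S hS
  have hS' : S ∈ Y.powersetCard t := hS
  rw [Finset.mem_powersetCard] at hS'
  exact h S hS'.1 hS'.2

theorem dl_congr {s t : ℕ} {c c₁ : Finset ℕ → ℕ} {Y : Finset ℕ}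
    (h : ∀ S ⊆ Y, S.card = t → c S = c₁ S) : dl s t c Y = dl s t c₁ Y := by
  unfold dl
  rw [cs_congr h]

theorem str_congr {s t : ℕ} {c c₁ : Finset ℕ → ℕ} {C A : Finset ℕ}
    (h : ∀ S ⊆ A, S.card = t → c S = c₁ S) (hs : Str s t c C A) : Str s t c₁ C A := by
  refine ⟨hs.1, fun Y hCY hYA => ?_⟩
  rw [← dl_congr (s := s) (fun S hS hc => h S (hS.trans hs.1) hc),
    ← dl_congr (s := s) (fun S hS hc => h S (hS.trans hYA) hc)]
  exact hs.2 Y hCY hYA

theorem str_trans (hsub : Submod) {s t : ℕ} (hst : s ≤ t) {c : Finset ℕ → ℕ}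
    {C B A : Finset ℕ} (h₁ : Str s t c C B) (h₂ : Str s t c B A) : Str s t c C A := by
  refine ⟨h₁.1.trans h₂.1, fun Y hCY hYA => ?_⟩
  have e := hsub s t hst c Y B
  have e₁ := h₁.2 (Y ∩ B) (Finset.subset_inter hCY h₁.1) Finset.inter_subset_right
  have e₂ := h₂.2 (Y ∪ B) Finset.subset_union_right (Finset.union_subset hYA h₂.1)
  omega

theorem iso_congr {t : ℕ} {c c₁ : Finset ℕ → ℕ} {f : ℕ → ℕ} {B A : Finset ℕ}
    (h : ∀ S ⊆ A, S.card = t → c S = c₁ S) (hB : B ⊆ A) (hf : B.image f ⊆ A)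
    (hi : Iso t c c f B) : Iso t c₁ c₁ f B := by
  refine ⟨hi.1, fun S hS S' hS' hc hc' => ?_⟩
  have k : ∀ S ⊆ B, S.card = t → (S.image f).card = t := by
    intro S hS hc
    rw [Finset.card_image_of_injOn (hi.1.mono (by exact_mod_cast hS)), hc]
  have k' : ∀ S ⊆ B, S.image f ⊆ A := fun S hS => (Finset.image_subset_image hS).trans hf
  rw [← h S (hS.trans hB) hc, ← h S' (hS'.trans hB) hc', ← h _ (k' S hS) (k S hS hc),
    ← h _ (k' S' hS') (k S' hS' hc')]
  exact hi.2 S hS S' hS' hc hc'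

theorem limit : Pool.Agent.N709.ST.Limit := by
  intro hsub s t hst A c h0 hSS hext hmem htask
  have hmono : ∀ n m, n ≤ m → A n ⊆ A m := by
    intro n m hnm
    induction hnm with
    | refl => exact Finset.Subset.refl _
    | step _ ih => exact ih.trans (hext _).1
  have hcol : ∀ n m, n ≤ m → ∀ S ⊆ A n, S.card = t → c m S = c n S := by
    intro n m hnm
    induction hnm with
    | refl => intro S _ _; rfl
    | @step m hm ih =>
      intro S hS hc
      rw [(hext m).2.1 S (hS.trans (hmono n m hm)) hc]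
      exact ih S hS hc
  have hcov : ∀ S : Finset ℕ, ∃ n, S ⊆ A n := by
    intro S
    refine ⟨S.sup id + 1, fun x hx => ?_⟩
    have hx' : x ≤ S.sup id := Finset.le_sup (f := id) hx
    exact hmono (x + 1) _ (by omega) (hmem x)
  have hcov' : ∀ (S : Finset ℕ) (n : ℕ), ∃ m, n ≤ m ∧ S ⊆ A m := by
    intro S n
    obtain ⟨m, hm⟩ := hcov S
    exact ⟨max n m, le_max_left _ _, hm.trans (hmono m _ (le_max_right _ _))⟩
  choose N hN using hcov
  set c' : Finset ℕ → ℕ := fun S => c (N S) S with hc'def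
  have hc' : ∀ n, ∀ S ⊆ A n, S.card = t → c' S = c n S := by
    intro n S hS hc
    show c (N S) S = c n S
    rcases le_total n (N S) with h | h
    · exact hcol n (N S) h S hS hc
    · exact (hcol (N S) n h S (hN S) hc).symm
  have hdl : ∀ n, ∀ Y ⊆ A n, dl s t c' Y = dl s t (c n) Y := by
    intro n Y hY
    exact dl_congr (fun S hS hc => hc' n S (hS.trans hY) hc)
  have hgood : ∀ n, Good s t (c n) (A n) := by
    intro n
    cases n with
    | zero => exact h0
    | succ n => exact (hext n).2.2.1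
  have hstr : ∀ n m, n ≤ m → Str s t (c m) (A n) (A m) := by
    intro n m hnm
    induction hnm with
    | refl =>
      refine ⟨Finset.Subset.refl _, fun Y h1 h2 => ?_⟩
      rw [Finset.Subset.antisymm h1 h2]
    | @step m hm ih =>
      have e : Str s t (c (m + 1)) (A n) (A m) :=
        str_congr (fun S hS hc => ((hext m).2.1 S hS hc).symm) ih
      exact str_trans hsub hst.le e (hext m).2.2.2
  have hSM : ∀ n C, Str s t (c n) C (A n) → StrM s t c' C := by
    intro n C hC Y hY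
    obtain ⟨m, hnm, hm⟩ := hcov' Y n
    have e : Str s t (c m) C (A n) :=
      str_congr (fun S hS hc => (hcol n m hnm S hS hc).symm) hC
    have e' := str_trans hsub hst.le e (hstr n m hnm)
    rw [hdl m C (hY.trans hm), hdl m Y hm]
    exact e'.2 Y hY hm
  have hMS : ∀ n C, C ⊆ A n → StrM s t c' C → Str s t (c n) C (A n) := by
    intro n C hCA hC
    refine ⟨hCA, fun Y h1 h2 => ?_⟩
    rw [← hdl n C hCA, ← hdl n Y h2]
    exact hC Y h1
  refine ⟨c', ?_, ?_, ?_⟩
  · intro Y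
    rw [hdl (N Y) Y (hN Y)]
    exact hgood (N Y) Y (hN Y)
  · intro B C p hCB hB hC hpC hiso
    obtain ⟨m, -, hm⟩ := hcov' (B ∪ C.image p) 0
    obtain ⟨n, hnm, hn⟩ := htask B C p m
    have hA := hm.trans (hmono m n hnm)
    have hBA : B ⊆ A n := Finset.subset_union_left.trans hA
    have hpA : C.image p ⊆ A n := Finset.subset_union_right.trans hA
    have hCA : C ⊆ A n := hCB.trans hBA
    have hval : Valid s t (c n) (A n) B C p :=
      ⟨hCB, hMS n B hBA hB, hMS n C hCA hC, hMS n _ hpA hpC,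
        iso_congr (fun S hS hc => hc' n S hS hc) hCA hpA hiso⟩
    obtain ⟨f, hf, hfi, hfs⟩ := hn hval
    have hBA' : B ⊆ A (n + 1) := hBA.trans (hmono n (n + 1) (Nat.le_succ n))
    exact ⟨f, hf, iso_congr (fun S hS hc => (hc' (n + 1) S hS hc).symm) hBA' hfs.1 hfi,
      hSM (n + 1) _ hfs⟩
  · obtain ⟨S, S', h1, h2, h3, h4, h5, h6, h7⟩ := hSS
    exact ⟨S, S', h3, h4, h5, h6, by rw [hc' 0 S h1 h3, hc' 0 S' h2 h4]; exact h7⟩

end Pool.Agent.N359.ST
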